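import Mathlib

/-!
# MP_4d57ea_nt, project HL: the Hardy-Littlewood asymptotic for `m^3+k`, almost all `k`, `m <= k^θ`

`nu p k` = number of solutions of `m^3 + k ≡ 0 (mod p)`, `S y k` = the local product over `p <= y`.
-/

namespace Pool.Agent.H43.HL

open Finset

/-- the number of residues `m` mod `p` with `p ∣ m^3 + k` -/
def nu (p k : ℕ) : ℕ := ((range p).filter fun m => p ∣ m ^ 3 + k).card

/-- the local product of Hardy and Littlewood for `m^3 + k` over the primes `p <= y` -/
noncomputable def S (y k : ℕ) : ℝ :=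
  ∏ p ∈ (Icc 1 y).filter Nat.Prime, (1 - (nu p k : ℝ) / p) / (1 - 1 / (p : ℝ))

end Pool.Agent.H43.HL
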