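import Pool.Agent.H43.HL.Defs

/-!
# The local product is bounded below for most `k`

`∑_{k<=X} 1/S_y(k) <= C X` for `X >= X1(y)`, with `C` independent of `y`.
-/

namespace Pool.Agent.H43.HL

open Finset

/-- the inverse local factor -/
noncomputable def gi (p k : ℕ) : ℝ := (1 - 1 / (p : ℝ)) / (1 - (nu p k : ℝ) / p)

theorem nu_mod (p k : ℕ) : nu p (k % p) = nu p k := by
  unfold nu
  congr 1
  apply Finset.filter_congr
  intro m _
  rw [Nat.dvd_iff_mod_eq_zero, Nat.dvd_iff_mod_eq_zero, Nat.add_mod, Nat.mod_mod, ← Nat.add_mod]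

theorem gi_mod (p k : ℕ) : gi p (k % p) = gi p k := by
  unfold gi
  rw [nu_mod]

theorem sum_nu (p : ℕ) (hp : 0 < p) : ∑ k ∈ range p, nu p k = p := by
  unfold nu
  simp only [Finset.card_filter]
  rw [Finset.sum_comm]
  have h : ∀ m ∈ range p, (∑ k ∈ range p, if p ∣ m ^ 3 + k then 1 else 0) = 1 := by
    intro m _
    rw [← Finset.card_filter, Finset.card_eq_one]
    refine ⟨(p - m ^ 3 % p) % p, ?_⟩
    ext k
    simp only [mem_filter, mem_range, mem_singleton]
    have hm := Nat.mod_lt (m ^ 3) hp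
    constructor
    · rintro ⟨hk, hd⟩
      rw [Nat.dvd_iff_mod_eq_zero, Nat.add_mod, Nat.mod_eq_of_lt hk] at hd
      have h1 : p ∣ m ^ 3 % p + k := Nat.dvd_of_mod_eq_zero hd
      obtain ⟨c, hc⟩ := h1
      rcases Nat.eq_zero_or_pos (m ^ 3 % p) with h0 | h0
      · rw [h0] at hc ⊢
        simp only [zero_add] at hc
        have hc0 : c = 0 := by
          by_contra hne
          have : 1 ≤ c := Nat.one_le_iff_ne_zero.2 hne
          nlinarith
        rw [hc0] at hc
        simp [hc]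
      · have hc1 : c = 1 := by
          have h2 : c < 2 := by
            by_contra h3
            push Not at h3
            nlinarith
          have h3 : c ≠ 0 := by
            rintro rfl
            omega
          omega
        rw [hc1, mul_one] at hc
        rw [Nat.mod_eq_of_lt (by omega)]
        omega
    · intro hk
      subst hk
      refine ⟨Nat.mod_lt _ hp, ?_⟩
      rw [Nat.dvd_iff_mod_eq_zero, Nat.add_mod, Nat.mod_mod, ← Nat.add_mod,
        Nat.add_mod, ← Nat.mod_mod (m ^ 3) p]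
      rw [Nat.mod_mod]
      rcases Nat.eq_zero_or_pos (m ^ 3 % p) with h0 | h0
      · rw [h0]; simp
      · rw [Nat.mod_eq_of_lt (show p - m ^ 3 % p < p by omega)]
        rw [show m ^ 3 % p + (p - m ^ 3 % p) = p by omega, Nat.mod_self]
  rw [Finset.sum_congr rfl h]
  simp

theorem nu_le_three (p k : ℕ) (hp : p.Prime) : nu p k ≤ 3 := by
  have := Fact.mk hp
  unfold nu
  have h1 : ((range p).filter fun m => p ∣ m ^ 3 + k).card ≤
      (Polynomial.nthRoots 3 (-(k : ZMod p))).toFinset.card := by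
    apply Finset.card_le_card_of_injOn (fun m : ℕ => (m : ZMod p))
    · intro m hm
      simp only [coe_filter, mem_range, Set.mem_ofPred_eq] at hm
      simp only [Multiset.mem_toFinset, Finset.mem_coe]
      rw [Polynomial.mem_nthRoots (by norm_num)]
      have := (ZMod.natCast_eq_zero_iff (m ^ 3 + k) p).2 hm.2
      push_cast at this
      linear_combination this
    · intro a ha b hb hab
      simp only [coe_filter, mem_range, Set.mem_ofPred_eq] at ha hb
      simp only at hab
      have := (ZMod.natCast_eq_natCast_iff' a b p).1 hab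
      rwa [Nat.mod_eq_of_lt ha.1, Nat.mod_eq_of_lt hb.1] at this
  calc _ ≤ _ := h1
    _ ≤ Multiset.card (Polynomial.nthRoots 3 (-(k : ZMod p))) := Multiset.toFinset_card_le _
    _ ≤ 3 := Polynomial.card_nthRoots 3 _

theorem nu_two (k : ℕ) : nu 2 k = 1 := by
  rw [← nu_mod]
  have : k % 2 < 2 := Nat.mod_lt _ (by norm_num)
  interval_cases (k % 2) <;> decide

theorem nu_three (k : ℕ) : nu 3 k = 1 := by
  rw [← nu_mod]
  have : k % 3 < 3 := Nat.mod_lt _ (by norm_num)
  interval_cases (k % 3) <;> decide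

theorem gi_pos (p k : ℕ) (hp : p.Prime) : 0 < gi p k := by
  have h2 := hp.two_le
  have hp0 : (0 : ℝ) < p := by exact_mod_cast hp.pos
  have hp1 : (1 : ℝ) < p := by exact_mod_cast hp.one_lt
  have hnum : 0 < 1 - 1 / (p : ℝ) := by
    rw [sub_pos, div_lt_one hp0]; exact hp1
  unfold gi
  apply div_pos hnum
  rw [sub_pos, div_lt_one hp0]
  by_cases h : p < 5
  · have : p = 2 ∨ p = 3 := by
      have : p ≠ 4 := by rintro rfl; norm_num at hp
      omega
    rcases this with rfl | rfl
    · rw [nu_two]; norm_num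
    · rw [nu_three]; norm_num
  · have h3 := nu_le_three p k hp
    have : nu p k < p := by omega
    exact_mod_cast this

theorem gi_le (p k : ℕ) (hp : p.Prime) (h5 : 5 ≤ p) :
    gi p k ≤ (1 - 1 / (p : ℝ)) * (1 + (nu p k : ℝ) / p + 45 / 2 / (p : ℝ) ^ 2) := by
  have hp5 : (5 : ℝ) ≤ p := by exact_mod_cast h5
  have hp0 : (0 : ℝ) < p := by linarith
  have hnum : 0 < 1 - 1 / (p : ℝ) := by
    rw [sub_pos, div_lt_one hp0]; linarith
  have h3 : (nu p k : ℝ) ≤ 3 := by exact_mod_cast nu_le_three p k hp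
  have h0 : (0 : ℝ) ≤ nu p k := Nat.cast_nonneg _
  have hx : (nu p k : ℝ) / p ≤ 3 / 5 := by
    rw [div_le_div_iff₀ hp0 (by norm_num)]; nlinarith
  have hx3 : (nu p k : ℝ) / p ≤ 3 / p := div_le_div_of_nonneg_right h3 hp0.le
  have hx0 : 0 ≤ (nu p k : ℝ) / p := by positivity
  unfold gi
  rw [div_eq_mul_inv]
  apply mul_le_mul_of_nonneg_left _ hnum.le
  set x := (nu p k : ℝ) / p with hxdef
  rw [inv_le_iff_one_le_mul₀ (by linarith)]
  have h9 : x ^ 2 ≤ 9 / (p : ℝ) ^ 2 := by
    calc x ^ 2 ≤ (3 / p) ^ 2 := pow_le_pow_left₀ hx0 hx3 2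
      _ = 9 / (p : ℝ) ^ 2 := by rw [div_pow]; norm_num
  have hpp : 0 < (p : ℝ) ^ 2 := by positivity
  have h10 : 45 / 2 / (p : ℝ) ^ 2 = 5 / 2 * (9 / (p : ℝ) ^ 2) := by ring
  rw [h10]
  have h11 : 0 ≤ 9 / (p : ℝ) ^ 2 := by positivity
  nlinarith [mul_nonneg (show 0 ≤ 3 / 5 - x by linarith) h11]

theorem sum_gi (p : ℕ) (hp : p.Prime) :
    ∑ k ∈ range p, gi p k ≤ p * (1 + 23 / (p : ℝ) ^ 2) := by
  have hp0 : (0 : ℝ) < p := by exact_mod_cast hp.pos
  by_cases h : p < 5
  · have : p = 2 ∨ p = 3 := by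
      have h2 := hp.two_le
      have : p ≠ 4 := by rintro rfl; norm_num at hp
      omega
    have h1 : ∀ k ∈ range p, gi p k = 1 := by
      intro k _
      unfold gi
      rcases this with rfl | rfl
      · rw [nu_two]; norm_num
      · rw [nu_three]; norm_num
    rw [Finset.sum_congr rfl h1]
    simp only [sum_const, card_range, nsmul_eq_mul, mul_one]
    have : 0 ≤ 23 / (p : ℝ) ^ 2 := by positivity
    nlinarith
  · have h5 : 5 ≤ p := by omega
    have hp5 : (5 : ℝ) ≤ p := by exact_mod_cast h5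
    have hs : (∑ k ∈ range p, (nu p k : ℝ)) = p := by
      exact_mod_cast sum_nu p hp.pos
    calc ∑ k ∈ range p, gi p k
        ≤ ∑ k ∈ range p, (1 - 1 / (p : ℝ)) * (1 + (nu p k : ℝ) / p + 45 / 2 / (p : ℝ) ^ 2) :=
          Finset.sum_le_sum (fun k _ => gi_le p k hp h5)
      _ = (1 - 1 / (p : ℝ)) * (p + 1 + p * (45 / 2 / (p : ℝ) ^ 2)) := by
          rw [← Finset.mul_sum, Finset.sum_add_distrib, Finset.sum_add_distrib,
            ← Finset.sum_div, hs]
          simp only [sum_const, card_range, nsmul_eq_mul, mul_one]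
          rw [div_self hp0.ne']
      _ ≤ p * (1 + 23 / (p : ℝ) ^ 2) := by
          have e1 : (1 - 1 / (p : ℝ)) * (p + 1 + p * (45 / 2 / (p : ℝ) ^ 2)) =
              p + 43 / 2 / p - 45 / 2 / (p : ℝ) ^ 2 := by
            field_simp
            ring
          have e2 : (p : ℝ) * (1 + 23 / (p : ℝ) ^ 2) = p + 23 / p := by
            field_simp
          rw [e1, e2]
          have h6 : 43 / 2 / (p : ℝ) ≤ 23 / p := div_le_div_of_nonneg_right (by norm_num) hp0.le
          have h7 : 0 ≤ 45 / 2 / (p : ℝ) ^ 2 := by positivity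
          linarith

/-- Chinese remainder theorem for sums of periodic functions -/
theorem sum_crt (N p : ℕ) (hN : 0 < N) (hp : 0 < p) (hc : N.Coprime p) (f g : ℕ → ℝ)
    (hf : ∀ k, f (k % N) = f k) (hg : ∀ k, g (k % p) = g k) :
    ∑ k ∈ range (N * p), f k * g k = (∑ k ∈ range N, f k) * ∑ k ∈ range p, g k := by
  rw [Finset.sum_mul_sum, ← Finset.sum_product']
  symm
  refine Finset.sum_nbij' (fun x => (Nat.chineseRemainder hc x.1 x.2 : ℕ))
    (fun k => (k % N, k % p)) ?_ ?_ ?_ ?_ ?_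
  · intro x _
    rw [mem_range]
    exact Nat.chineseRemainder_lt_mul hc x.1 x.2 hN.ne' hp.ne'
  · intro k _
    simp only [mem_product, mem_range]
    exact ⟨Nat.mod_lt _ hN, Nat.mod_lt _ hp⟩
  · intro x hx
    simp only [mem_product, mem_range] at hx
    have h1 := (Nat.chineseRemainder hc x.1 x.2).prop.1
    have h2 := (Nat.chineseRemainder hc x.1 x.2).prop.2
    ext
    · simp only
      rw [Nat.ModEq, Nat.mod_eq_of_lt hx.1] at h1
      exact h1
    · simp only
      rw [Nat.ModEq, Nat.mod_eq_of_lt hx.2] at h2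
      exact h2
  · intro k hk
    rw [mem_range] at hk
    simp only
    have h0 : (k ≡ k % N [MOD N]) ∧ (k ≡ k % p [MOD p]) :=
      ⟨(Nat.mod_modEq k N).symm, (Nat.mod_modEq k p).symm⟩
    have h1 := Nat.chineseRemainder_modEq_unique hc h0.1 h0.2
    have h2 := Nat.chineseRemainder_lt_mul hc (k % N) (k % p) hN.ne' hp.ne'
    rw [Nat.ModEq, Nat.mod_eq_of_lt hk, Nat.mod_eq_of_lt h2] at h1
    exact h1.symm
  · intro x hx
    have h1 := (Nat.chineseRemainder hc x.1 x.2).prop.1
    have h2 := (Nat.chineseRemainder hc x.1 x.2).prop.2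
    have e1 : f (Nat.chineseRemainder hc x.1 x.2 : ℕ) = f x.1 := by
      rw [← hf (Nat.chineseRemainder hc x.1 x.2 : ℕ), h1, hf]
    have e2 : g (Nat.chineseRemainder hc x.1 x.2 : ℕ) = g x.2 := by
      rw [← hg (Nat.chineseRemainder hc x.1 x.2 : ℕ), h2, hg]
    rw [e1, e2]

theorem prod_gi_mod (P : Finset ℕ) (N k : ℕ) (h : ∀ p ∈ P, p ∣ N) :
    ∏ p ∈ P, gi p (k % N) = ∏ p ∈ P, gi p k := by
  apply Finset.prod_congr rfl
  intro p hp
  rw [← gi_mod p (k % N), Nat.mod_mod_of_dvd k (h p hp), gi_mod]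

theorem sum_prod_gi (P : Finset ℕ) (hP : ∀ p ∈ P, p.Prime) :
    ∑ k ∈ range (∏ p ∈ P, p), ∏ p ∈ P, gi p k = ∏ p ∈ P, ∑ k ∈ range p, gi p k := by
  induction P using Finset.induction_on with
  | empty => simp
  | insert a s ha ih =>
    have hs : ∀ p ∈ s, p.Prime := fun p hp => hP p (mem_insert_of_mem hp)
    have hap : a.Prime := hP a (mem_insert_self a s)
    rw [Finset.prod_insert ha, Finset.prod_insert ha, mul_comm a]
    have hN : 0 < ∏ p ∈ s, p := Finset.prod_pos (fun p hp => (hs p hp).pos)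
    have hc : (∏ p ∈ s, p).Coprime a := by
      apply Nat.Coprime.prod_left
      intro p hp
      rw [Nat.coprime_primes (hs p hp) hap]
      rintro rfl
      exact ha hp
    have h1 : ∀ k, ∏ p ∈ insert a s, gi p k = (∏ p ∈ s, gi p k) * gi a k := by
      intro k
      rw [Finset.prod_insert ha, mul_comm]
    simp only [h1]
    rw [sum_crt _ a hN hap.pos hc (fun k => ∏ p ∈ s, gi p k) (fun k => gi a k)
      (fun k => prod_gi_mod s _ k (fun p hp => Finset.dvd_prod_of_mem (fun p => p) hp))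
      (fun k => gi_mod a k), ih hs, mul_comm]

/-- sums over full periods -/
theorem sum_period (N : ℕ) (hN : 0 < N) (f : ℕ → ℝ) (hf : ∀ k, f (k % N) = f k)
    (h0 : ∀ k, 0 ≤ f k) (X : ℕ) :
    ∑ k ∈ Icc 1 X, f k ≤ ((X / N : ℕ) + 1) * ∑ k ∈ range N, f k := by
  have hr : ∀ r : ℕ, ∑ k ∈ range (r * N), f k = r * ∑ k ∈ range N, f k := by
    intro r
    induction r with
    | zero => simp
    | succ r ih =>
      rw [Nat.succ_mul, Finset.sum_range_add, ih]
      have : ∑ x ∈ range N, f (r * N + x) = ∑ x ∈ range N, f x := by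
        apply Finset.sum_congr rfl
        intro x _
        rw [← hf (r * N + x), ← hf x]
        congr 1
        rw [Nat.add_mod]
        simp
      rw [this]
      push_cast
      ring
  have h1 : ∑ k ∈ Icc 1 X, f k ≤ ∑ k ∈ range (X + 1), f k := by
    apply Finset.sum_le_sum_of_subset_of_nonneg
    · intro k hk
      rw [mem_Icc] at hk
      rw [mem_range]
      omega
    · intro k _ _
      exact h0 k
  have h2 : ∑ k ∈ range (X + 1), f k ≤ ∑ k ∈ range ((X / N + 1) * N), f k := by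
    apply Finset.sum_le_sum_of_subset_of_nonneg
    · intro k hk
      rw [mem_range] at hk ⊢
      have := Nat.lt_div_mul_add hN (a := X)
      nlinarith
    · intro k _ _
      exact h0 k
  rw [hr] at h2
  push_cast at h2
  linarith

theorem prod_bound (P : Finset ℕ) (hP : ∀ p ∈ P, 2 ≤ p) :
    ∏ p ∈ P, (1 + 23 / (p : ℝ) ^ 2) ≤ Real.exp 46 := by
  calc ∏ p ∈ P, (1 + 23 / (p : ℝ) ^ 2) ≤ ∏ p ∈ P, Real.exp (23 / (p : ℝ) ^ 2) := by
        apply Finset.prod_le_prod
        · intro p _
          positivity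
        · intro p _
          have := Real.add_one_le_exp (23 / (p : ℝ) ^ 2)
          linarith
    _ = Real.exp (∑ p ∈ P, 23 / (p : ℝ) ^ 2) := (Real.exp_sum _ _).symm
    _ ≤ Real.exp 46 := by
        apply Real.exp_le_exp.2
        have h1 : ∀ p ∈ P, 23 / (p : ℝ) ^ 2 ≤ 23 * (1 / ((p : ℝ) - 1) - 1 / p) := by
          intro p hp
          have h2 : (2 : ℝ) ≤ p := by exact_mod_cast hP p hp
          have hp1 : (p : ℝ) - 1 ≠ 0 := by linarith
          have hp0 : (p : ℝ) ≠ 0 := by linarith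
          have e : 1 / ((p : ℝ) - 1) - 1 / p = 1 / (((p : ℝ) - 1) * p) := by
            rw [div_sub_div _ _ hp1 hp0]
            congr 1
            ring
          rw [e, mul_one_div]
          apply div_le_div_of_nonneg_left (by norm_num)
          · nlinarith
          · nlinarith
        have h3 : ∀ n : ℕ, ∑ p ∈ Icc 2 (n + 1), (1 / ((p : ℝ) - 1) - 1 / p) = 1 - 1 / ((n : ℝ) + 1) := by
          intro n
          induction n with
          | zero => simp
          | succ n ih =>
            rw [Finset.sum_Icc_succ_top (by omega), ih]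
            push_cast
            ring
        have hsub : P ⊆ Icc 2 (P.sup id + 1) := by
          intro p hp
          rw [mem_Icc]
          have := Finset.le_sup (f := id) hp
          simp only [id] at this
          exact ⟨hP p hp, by omega⟩
        calc ∑ p ∈ P, 23 / (p : ℝ) ^ 2
            ≤ ∑ p ∈ P, 23 * (1 / ((p : ℝ) - 1) - 1 / p) := Finset.sum_le_sum h1
          _ ≤ ∑ p ∈ Icc 2 (P.sup id + 1), 23 * (1 / ((p : ℝ) - 1) - 1 / p) := by
              apply Finset.sum_le_sum_of_subset_of_nonneg hsub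
              intro p hp _
              rw [mem_Icc] at hp
              have h2 : (2 : ℝ) ≤ p := by exact_mod_cast hp.1
              have : 1 / (p : ℝ) ≤ 1 / ((p : ℝ) - 1) :=
                one_div_le_one_div_of_le (by linarith) (by linarith)
              linarith
          _ = 23 * (1 - 1 / (((P.sup id : ℕ) : ℝ) + 1)) := by rw [← Finset.mul_sum, h3]
          _ ≤ 46 := by
              have : 0 ≤ 1 / (((P.sup id : ℕ) : ℝ) + 1) := by positivity
              linarith

theorem S_pos (y k : ℕ) : 0 < S y k := by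
  unfold S
  apply Finset.prod_pos
  intro p hp
  have := gi_pos p k (mem_filter.1 hp).2
  unfold gi at this
  have h2 : (1 - (nu p k : ℝ) / p) / (1 - 1 / (p : ℝ)) = ((1 - 1 / (p : ℝ)) / (1 - (nu p k : ℝ) / p))⁻¹ := by
    rw [inv_div]
  rw [h2]
  exact inv_pos.2 this

theorem S_inv (y k : ℕ) : (S y k)⁻¹ = ∏ p ∈ (Icc 1 y).filter Nat.Prime, gi p k := by
  unfold S gi
  rw [← Finset.prod_inv_distrib]
  apply Finset.prod_congr rfl
  intro p _
  rw [inv_div]

/-- the mean of `1/S_y(k)` is bounded uniformly in `y` -/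
theorem mean_inv (y : ℕ) : ∃ X1 : ℕ, ∀ X : ℕ, X1 ≤ X →
    ∑ k ∈ Icc 1 X, (S y k)⁻¹ ≤ 2 * Real.exp 46 * X := by
  set P := (Icc 1 y).filter Nat.Prime with hPdef
  have hP : ∀ p ∈ P, p.Prime := fun p hp => (mem_filter.1 hp).2
  set N := ∏ p ∈ P, p with hN
  have hN0 : 0 < N := Finset.prod_pos (fun p hp => (hP p hp).pos)
  refine ⟨N, fun X hX => ?_⟩
  have h1 := sum_period N hN0 (fun k => ∏ p ∈ P, gi p k)
    (fun k => prod_gi_mod P N k (fun p hp => Finset.dvd_prod_of_mem (fun p => p) hp))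
    (fun k => Finset.prod_nonneg (fun p hp => (gi_pos p k (hP p hp)).le)) X
  have h2 : ∑ k ∈ Icc 1 X, (S y k)⁻¹ = ∑ k ∈ Icc 1 X, ∏ p ∈ P, gi p k :=
    Finset.sum_congr rfl (fun k _ => S_inv y k)
  rw [h2]
  have h3 : ∑ k ∈ range N, ∏ p ∈ P, gi p k ≤ N * Real.exp 46 := by
    rw [hN, sum_prod_gi P hP]
    calc ∏ p ∈ P, ∑ k ∈ range p, gi p k ≤ ∏ p ∈ P, ((p : ℝ) * (1 + 23 / (p : ℝ) ^ 2)) := by
          apply Finset.prod_le_prod
          · intro p hp
            exact Finset.sum_nonneg (fun k _ => (gi_pos p k (hP p hp)).le)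
          · intro p hp
            exact sum_gi p (hP p hp)
      _ = (∏ p ∈ P, (p : ℝ)) * ∏ p ∈ P, (1 + 23 / (p : ℝ) ^ 2) := Finset.prod_mul_distrib
      _ ≤ (∏ p ∈ P, (p : ℝ)) * Real.exp 46 := by
          apply mul_le_mul_of_nonneg_left (prod_bound P (fun p hp => (hP p hp).two_le))
          exact Finset.prod_nonneg (fun p _ => Nat.cast_nonneg p)
      _ = _ := by push_cast; rfl
  have hXN : (1 : ℝ) ≤ X / N := by
    rw [le_div_iff₀ (by exact_mod_cast hN0), one_mul]
    exact_mod_cast hX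
  have hfl : ((X / N : ℕ) : ℝ) ≤ X / N := Nat.cast_div_le
  calc ∑ k ∈ Icc 1 X, ∏ p ∈ P, gi p k ≤ (((X / N : ℕ) : ℝ) + 1) * ∑ k ∈ range N, ∏ p ∈ P, gi p k := h1
    _ ≤ (((X / N : ℕ) : ℝ) + 1) * (N * Real.exp 46) :=
        mul_le_mul_of_nonneg_left h3 (by positivity)
    _ ≤ (2 * (X / N : ℝ)) * (N * Real.exp 46) := by
        apply mul_le_mul_of_nonneg_right _ (by positivity)
        linarith
    _ = 2 * Real.exp 46 * X := by
        have : (N : ℝ) ≠ 0 := by exact_mod_cast hN0.ne'
        field_simp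

end Pool.Agent.H43.HL
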