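import Pool.Agent.H43.HL.Final
import Pool.Agent.H43.HL.Low

/-!
# Almost all `k` have many primes `m^3+k` with `m <= k^θ`, `θ > 1/9`
-/

namespace Pool.Agent.H43.HL

open Finset

theorem almost_all (θ : ℝ) (hθ : 1 / 9 < θ) (η : ℝ) (hη : 0 < η) :
    ∃ c : ℝ, 0 < c ∧ ∃ X0 : ℕ, 2 ≤ X0 ∧
    ∀ X M : ℕ, X0 ≤ X → (X : ℝ) ^ θ ≤ M → M ^ 3 ≤ X →
    ((((Icc 1 X).filter (fun k =>
      (((Icc 1 M).filter (fun m => (m ^ 3 + k).Prime)).card : ℝ) <
        c * (M / Real.log X))).card : ℕ) : ℝ) ≤ η * X := by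
  obtain ⟨C, hC⟩ := final θ hθ
  set c : ℝ := η / (8 * Real.exp 46) with hc
  have hc0 : 0 < c := by positivity
  have hlim : Filter.Tendsto (fun y : ℕ => |C| * (y : ℝ) ^ (-(1 : ℝ) / 24)) Filter.atTop (nhds 0) := by
    have h1 : Filter.Tendsto (fun y : ℕ => (y : ℝ) ^ (-((1 : ℝ) / 24))) Filter.atTop (nhds 0) :=
      (tendsto_rpow_neg_atTop (by norm_num)).comp tendsto_natCast_atTop_atTop
    have h2 := h1.const_mul |C|
    rw [mul_zero] at h2
    refine h2.congr (fun y => ?_)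
    rw [show -(1 : ℝ) / 24 = -((1 : ℝ) / 24) by ring]
  have hpos : 0 < c ^ 2 * (η / 2) := by positivity
  obtain ⟨y, hy1, hy2⟩ := ((hlim.eventually_lt_const hpos).and
    (Filter.eventually_ge_atTop 1)).exists
  obtain ⟨X0, hX0, hmain⟩ := hC y hy2
  obtain ⟨X1, hX1⟩ := mean_inv y
  refine ⟨c, hc0, max X0 X1, le_trans hX0 (le_max_left _ _), ?_⟩
  intro X M hX hM1 hM2
  have hA := hmain X M (le_trans (le_max_left _ _) hX) hM1 hM2
  have hB := hX1 X (le_trans (le_max_right _ _) hX)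
  have hX2 : 2 ≤ X := le_trans hX0 (le_trans (le_max_left _ _) hX)
  have hXr : (2 : ℝ) ≤ X := by exact_mod_cast hX2
  have hlog : 0 < Real.log X := Real.log_pos (by linarith)
  have hM : (0 : ℝ) < M := lt_of_lt_of_le (Real.rpow_pos_of_pos (by linarith) _) hM1
  have hR : 0 < (M : ℝ) / Real.log X := div_pos hM hlog
  set R : ℝ := (M : ℝ) / Real.log X with hRdef
  set cnt : ℕ → ℝ := fun k => (((Icc 1 M).filter (fun m => (m ^ 3 + k).Prime)).card : ℝ) with hcnt
  -- the two exceptional sets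
  set A := (Icc 1 X).filter (fun k => S y k < 2 * c) with hAdef
  set B := (Icc 1 X).filter (fun k => c ^ 2 * R ^ 2 ≤ (cnt k - R * S y k) ^ 2) with hBdef
  have hsub : (Icc 1 X).filter (fun k => cnt k < c * R) ⊆ A ∪ B := by
    intro k hk
    rw [mem_filter] at hk
    rw [mem_union]
    by_cases h : S y k < 2 * c
    · left
      exact mem_filter.2 ⟨hk.1, h⟩
    · right
      push Not at h
      refine mem_filter.2 ⟨hk.1, ?_⟩
      have h1 : c * R ≤ R * S y k - cnt k := by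
        have := mul_le_mul_of_nonneg_left h hR.le
        linarith [hk.2]
      have h2 : (c * R) ^ 2 ≤ (R * S y k - cnt k) ^ 2 :=
        pow_le_pow_left₀ (by positivity) h1 2
      calc c ^ 2 * R ^ 2 = (c * R) ^ 2 := by ring
        _ ≤ (R * S y k - cnt k) ^ 2 := h2
        _ = (cnt k - R * S y k) ^ 2 := by ring
  have hAcard : (A.card : ℝ) ≤ η / 2 * X := by
    have h1 : (A.card : ℝ) * (1 / (2 * c)) ≤ ∑ k ∈ Icc 1 X, (S y k)⁻¹ := by
      calc (A.card : ℝ) * (1 / (2 * c)) = ∑ _k ∈ A, 1 / (2 * c) := by simp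
        _ ≤ ∑ k ∈ A, (S y k)⁻¹ := by
            apply Finset.sum_le_sum
            intro k hk
            have := (mem_filter.1 hk).2
            rw [← one_div]
            exact one_div_le_one_div_of_le (S_pos y k) this.le
        _ ≤ ∑ k ∈ Icc 1 X, (S y k)⁻¹ := by
            apply Finset.sum_le_sum_of_subset_of_nonneg (filter_subset _ _)
            intro k _ _
            exact (inv_pos.2 (S_pos y k)).le
    have h2 := h1.trans hB
    rw [mul_one_div, div_le_iff₀ (by positivity)] at h2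
    calc (A.card : ℝ) ≤ 2 * Real.exp 46 * X * (2 * c) := h2
      _ = η / 2 * X := by
          rw [hc]
          field_simp
          ring
  have hBcard : (B.card : ℝ) ≤ η / 2 * X := by
    have h1 : (B.card : ℝ) * (c ^ 2 * R ^ 2) ≤
        ∑ k ∈ Icc 1 X, (cnt k - R * S y k) ^ 2 := by
      calc (B.card : ℝ) * (c ^ 2 * R ^ 2) = ∑ _k ∈ B, c ^ 2 * R ^ 2 := by simp
        _ ≤ ∑ k ∈ B, (cnt k - R * S y k) ^ 2 :=
            Finset.sum_le_sum (fun k hk => (mem_filter.1 hk).2)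
        _ ≤ ∑ k ∈ Icc 1 X, (cnt k - R * S y k) ^ 2 :=
            Finset.sum_le_sum_of_subset_of_nonneg (filter_subset _ _) (fun _ _ _ => sq_nonneg _)
    have h2 := h1.trans hA
    have h3 : C * (y : ℝ) ^ (-(1 : ℝ) / 24) * X * R ^ 2 ≤ (c ^ 2 * (η / 2)) * X * R ^ 2 := by
      have h4 : C * (y : ℝ) ^ (-(1 : ℝ) / 24) ≤ c ^ 2 * (η / 2) := by
        refine le_trans ?_ hy1.le
        exact mul_le_mul_of_nonneg_right (le_abs_self C) (Real.rpow_nonneg (Nat.cast_nonneg y) _)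
      have h5 : (0 : ℝ) ≤ X := by linarith
      have h6 : 0 ≤ R ^ 2 := sq_nonneg R
      exact mul_le_mul_of_nonneg_right (mul_le_mul_of_nonneg_right h4 h5) h6
    have h4 := h2.trans h3
    have h5 : 0 < c ^ 2 * R ^ 2 := by positivity
    have h6 : (B.card : ℝ) * (c ^ 2 * R ^ 2) ≤ (η / 2 * X) * (c ^ 2 * R ^ 2) := by
      calc _ ≤ _ := h4
        _ = _ := by ring
    exact le_of_mul_le_mul_right h6 h5
  calc ((((Icc 1 X).filter (fun k => cnt k < c * R)).card : ℕ) : ℝ)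
      ≤ ((A ∪ B).card : ℝ) := by exact_mod_cast Finset.card_le_card hsub
    _ ≤ (A.card : ℝ) + B.card := by exact_mod_cast Finset.card_union_le A B
    _ ≤ η * X := by linarith

/-- the asymptotic formula with a relative error for almost all `k` -/
theorem relative (θ : ℝ) (hθ : 1 / 9 < θ) :
    ∃ C : ℝ, ∀ y : ℕ, 1 ≤ y → ∃ X0 : ℕ, 2 ≤ X0 ∧
    ∀ X M : ℕ, X0 ≤ X → (X : ℝ) ^ θ ≤ M → M ^ 3 ≤ X → ∀ δ : ℝ, 0 < δ →
    ((((Icc 1 X).filter (fun k =>
      δ * (M / Real.log X * S y k) <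
      |(((Icc 1 M).filter (fun m => (m ^ 3 + k).Prime)).card : ℝ) -
        M / Real.log X * S y k|)).card : ℕ) : ℝ) ≤
      C * (δ ^ 2 * (y : ℝ) ^ ((1 : ℝ) / 24)) ^ (-(1 : ℝ) / 3) * X := by
  obtain ⟨C, hC⟩ := final θ hθ
  refine ⟨4 * Real.exp 46 + |C| / 4, ?_⟩
  intro y hy
  obtain ⟨X0, hX0, hmain⟩ := hC y hy
  obtain ⟨X1, hX1⟩ := mean_inv y
  refine ⟨max X0 X1, le_trans hX0 (le_max_left _ _), ?_⟩
  intro X M hX hM1 hM2 δ hδ
  have hypos : (0 : ℝ) < y := by exact_mod_cast hy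
  set D : ℝ := δ ^ 2 * (y : ℝ) ^ ((1 : ℝ) / 24) with hD
  have hD0 : 0 < D := by positivity
  set c : ℝ := D ^ (-(1 : ℝ) / 3) with hc
  have hc0 : 0 < c := Real.rpow_pos_of_pos hD0 _
  have hc3 : c ^ 3 * D = 1 := by
    rw [hc, ← Real.rpow_natCast, ← Real.rpow_mul hD0.le]
    norm_num
    rw [Real.rpow_neg_one, inv_mul_cancel₀ hD0.ne']
  have hA := hmain X M (le_trans (le_max_left _ _) hX) hM1 hM2
  have hB := hX1 X (le_trans (le_max_right _ _) hX)
  have hX2 : 2 ≤ X := le_trans hX0 (le_trans (le_max_left _ _) hX)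
  have hXr : (2 : ℝ) ≤ X := by exact_mod_cast hX2
  have hlog : 0 < Real.log X := Real.log_pos (by linarith)
  have hM : (0 : ℝ) < M := lt_of_lt_of_le (Real.rpow_pos_of_pos (by linarith) _) hM1
  have hR : 0 < (M : ℝ) / Real.log X := div_pos hM hlog
  set R : ℝ := (M : ℝ) / Real.log X with hRdef
  set cnt : ℕ → ℝ := fun k => (((Icc 1 M).filter (fun m => (m ^ 3 + k).Prime)).card : ℝ) with hcnt
  set A := (Icc 1 X).filter (fun k => S y k < 2 * c) with hAdef
  set B := (Icc 1 X).filter (fun k => (2 * c * δ * R) ^ 2 ≤ (cnt k - R * S y k) ^ 2) with hBdef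
  have hsub : (Icc 1 X).filter (fun k => δ * (R * S y k) < |cnt k - R * S y k|) ⊆ A ∪ B := by
    intro k hk
    rw [mem_filter] at hk
    rw [mem_union]
    by_cases h : S y k < 2 * c
    · left
      exact mem_filter.2 ⟨hk.1, h⟩
    · right
      push Not at h
      refine mem_filter.2 ⟨hk.1, ?_⟩
      have h1 : 2 * c * δ * R ≤ |cnt k - R * S y k| := by
        refine le_trans ?_ hk.2.le
        have h2 := mul_le_mul_of_nonneg_left h (mul_pos hδ hR).le
        calc 2 * c * δ * R = δ * R * (2 * c) := by ring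
          _ ≤ δ * R * S y k := h2
          _ = δ * (R * S y k) := by ring
      rw [← sq_abs (cnt k - R * S y k)]
      exact pow_le_pow_left₀ (by positivity) h1 2
  have hAcard : (A.card : ℝ) ≤ 4 * Real.exp 46 * c * X := by
    have h1 : (A.card : ℝ) * (1 / (2 * c)) ≤ ∑ k ∈ Icc 1 X, (S y k)⁻¹ := by
      calc (A.card : ℝ) * (1 / (2 * c)) = ∑ _k ∈ A, 1 / (2 * c) := by simp
        _ ≤ ∑ k ∈ A, (S y k)⁻¹ := by
            apply Finset.sum_le_sum
            intro k hk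
            have := (mem_filter.1 hk).2
            rw [← one_div]
            exact one_div_le_one_div_of_le (S_pos y k) this.le
        _ ≤ ∑ k ∈ Icc 1 X, (S y k)⁻¹ := by
            apply Finset.sum_le_sum_of_subset_of_nonneg (filter_subset _ _)
            intro k _ _
            exact (inv_pos.2 (S_pos y k)).le
    have h2 := h1.trans hB
    rw [mul_one_div, div_le_iff₀ (by positivity)] at h2
    calc (A.card : ℝ) ≤ 2 * Real.exp 46 * X * (2 * c) := h2
      _ = 4 * Real.exp 46 * c * X := by ring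
  have hBcard : (B.card : ℝ) ≤ |C| / 4 * c * X := by
    have h1 : (B.card : ℝ) * (2 * c * δ * R) ^ 2 ≤
        ∑ k ∈ Icc 1 X, (cnt k - R * S y k) ^ 2 := by
      calc (B.card : ℝ) * (2 * c * δ * R) ^ 2 = ∑ _k ∈ B, (2 * c * δ * R) ^ 2 := by simp
        _ ≤ ∑ k ∈ B, (cnt k - R * S y k) ^ 2 :=
            Finset.sum_le_sum (fun k hk => (mem_filter.1 hk).2)
        _ ≤ ∑ k ∈ Icc 1 X, (cnt k - R * S y k) ^ 2 :=
            Finset.sum_le_sum_of_subset_of_nonneg (filter_subset _ _) (fun _ _ _ => sq_nonneg _)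
    have h2 := h1.trans hA
    have hy24 : (y : ℝ) ^ (-(1 : ℝ) / 24) * (y : ℝ) ^ ((1 : ℝ) / 24) = 1 := by
      rw [← Real.rpow_add hypos, show -(1 : ℝ) / 24 + 1 / 24 = 0 by ring, Real.rpow_zero]
    have hyn : 0 ≤ (y : ℝ) ^ (-(1 : ℝ) / 24) := Real.rpow_nonneg hypos.le _
    have h3 : C * (y : ℝ) ^ (-(1 : ℝ) / 24) * X * R ^ 2 ≤ |C| * (y : ℝ) ^ (-(1 : ℝ) / 24) * X * R ^ 2 := by
      have h5 : (0 : ℝ) ≤ X := by linarith
      have h6 : 0 ≤ R ^ 2 := sq_nonneg R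
      exact mul_le_mul_of_nonneg_right (mul_le_mul_of_nonneg_right
        (mul_le_mul_of_nonneg_right (le_abs_self C) hyn) h5) h6
    have h4 := h2.trans h3
    have h5 : 0 < (2 * c * δ * R) ^ 2 := by positivity
    have h6 : |C| * (y : ℝ) ^ (-(1 : ℝ) / 24) * X * R ^ 2 = (|C| / 4 * c * X) * (2 * c * δ * R) ^ 2 := by
      have e1 : (|C| / 4 * c * X) * (2 * c * δ * R) ^ 2 = |C| * X * R ^ 2 * (c ^ 3 * δ ^ 2) := by ring
      have e2 : c ^ 3 * δ ^ 2 = (y : ℝ) ^ (-(1 : ℝ) / 24) := by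
        calc c ^ 3 * δ ^ 2 = c ^ 3 * δ ^ 2 * ((y : ℝ) ^ (-(1 : ℝ) / 24) * (y : ℝ) ^ ((1 : ℝ) / 24)) := by
              rw [hy24, mul_one]
          _ = (c ^ 3 * (δ ^ 2 * (y : ℝ) ^ ((1 : ℝ) / 24))) * (y : ℝ) ^ (-(1 : ℝ) / 24) := by ring
          _ = (y : ℝ) ^ (-(1 : ℝ) / 24) := by rw [← hD, hc3, one_mul]
      rw [e1, e2]
      ring
    rw [h6] at h4
    exact le_of_mul_le_mul_right h4 h5
  calc ((((Icc 1 X).filter (fun k => δ * (R * S y k) < |cnt k - R * S y k|)).card : ℕ) : ℝ)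
      ≤ ((A ∪ B).card : ℝ) := by exact_mod_cast Finset.card_le_card hsub
    _ ≤ (A.card : ℝ) + B.card := by exact_mod_cast Finset.card_union_le A B
    _ ≤ (4 * Real.exp 46 + |C| / 4) * c * X := by linarith

end Pool.Agent.H43.HL
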