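import Pool.Agent.H43.HL.Defs

/-!
# [H43 HL CRT] The number of `m <= M` with `(m^3+k, W) = 1`

Let `y >= 1` and `W >= 1` be divisible by every prime `p <= y` and by no other prime. Then
`|#{1 <= m <= M : (m^3+k, W) = 1} * W/φ(W) - M * S y k| <= W^2`.

PROOF. Let `R` be the product of the primes `p <= y` (`R ∣ W`, same prime factors), `(m^3+k,W) = 1` iff
`(m^3+k,R) = 1`. The condition depends on `m mod R`, and by the Chinese remainder theorem the number of
residues mod `R` satisfying it is `∏_{p<=y} (p - nu p k)` (induction over the primes, e.g. with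
`Nat.chineseRemainder` / `ZMod.chineseRemainder` / `ZMod.prodEquivPi`). So
`#{1<=m<=M} = ⌊M/R⌋ ∏(p - nu) + (0..R)`, i.e. `= M ∏(1 - nu/p) + θ R`, `|θ| <= 1` (`M/R - 1 <= ⌊M/R⌋ <= M/R`,
both errors have opposite signs or use `|θ| <= 1` carefully; any bound `<= W` is fine). Multiply by
`W/φ(W) = ∏_{p∣W} (1-1/p)^(-1) <= W` (`Nat.totient_eq_mul_prod_factors`).
-/

namespace Pool.Agent.H43.HL

open Finset

/-- The number of residues `m` mod `n` with `(m^3+k, n) = 1`. -/
def cN (n k : ℕ) : ℕ := ((range n).filter fun m => (m ^ 3 + k).Coprime n).card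

theorem cong_coprime (n k a b : ℕ) (h : a ≡ b [MOD n]) :
    (a ^ 3 + k).Coprime n ↔ (b ^ 3 + k).Coprime n := by
  have h1 : a ^ 3 + k ≡ b ^ 3 + k [MOD n] := (h.pow 3).add_right k
  unfold Nat.Coprime
  rw [h1.gcd_eq]

theorem cong_dvd (p k a b : ℕ) (h : a ≡ b [MOD p]) : p ∣ a ^ 3 + k ↔ p ∣ b ^ 3 + k := by
  have h1 : a ^ 3 + k ≡ b ^ 3 + k [MOD p] := (h.pow 3).add_right k
  exact h1.dvd_iff dvd_rfl

/-- Counting a periodic predicate over several periods. -/
theorem card_periods (q : ℕ → Prop) [DecidablePred q] (a : ℕ) (hq : ∀ m n, m ≡ n [MOD a] → (q m ↔ q n))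
    (b : ℕ) : ((range (a * b)).filter q).card = b * ((range a).filter q).card := by
  induction b with
  | zero => simp
  | succ b ih =>
    have h0 : (range (a * (b + 1))).filter q = ((range (a * b)).filter q) ∪
        ((Ico (a * b) (a * b + a)).filter q) := by
      rw [← filter_union]
      congr 1
      ext x
      simp only [mem_union, mem_range, mem_Ico]
      rw [Nat.mul_succ]
      omega
    have hd : Disjoint ((range (a * b)).filter q) ((Ico (a * b) (a * b + a)).filter q) := by
      apply disjoint_filter_filter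
      rw [Finset.disjoint_left]
      intro x hx hx'
      rw [mem_range] at hx
      rw [mem_Ico] at hx'
      omega
    have hp : Function.Periodic q a := by
      intro x
      exact propext (hq _ _ (by simp [Nat.ModEq]))
    rw [h0, card_union_of_disjoint hd, ih, Nat.filter_Ico_card_eq_of_periodic _ _ _ hp,
      Nat.count_eq_card_filter_range]
    ring

theorem cN_prime_pow (p a k : ℕ) (hp : p.Prime) (ha : 0 < a) :
    (cN (p ^ a) k : ℝ) = (p ^ a : ℕ) * (1 - (nu p k : ℝ) / p) := by
  obtain ⟨b, rfl⟩ : ∃ b, a = b + 1 := ⟨a - 1, by omega⟩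
  have h1 : cN (p ^ (b + 1)) k = ((range (p * p ^ b)).filter fun m => ¬ p ∣ m ^ 3 + k).card := by
    unfold cN
    rw [pow_succ, mul_comm (p ^ b) p]
    congr 1
    apply filter_congr
    intro m _
    rw [mul_comm p (p ^ b), ← pow_succ, Nat.coprime_pow_right_iff (by omega), Nat.coprime_comm,
      hp.coprime_iff_not_dvd]
  have h2 : ((range p).filter fun m => ¬ p ∣ m ^ 3 + k).card + nu p k = p := by
    unfold nu
    rw [add_comm, Finset.card_filter_add_card_filter_not, card_range]
  rw [h1, card_periods (fun m => ¬ p ∣ m ^ 3 + k) p (fun m n h => not_congr (cong_dvd p k m n h))]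
  have h3 : (((range p).filter fun m => ¬ p ∣ m ^ 3 + k).card : ℝ) = p - nu p k := by
    have : ((((range p).filter fun m => ¬ p ∣ m ^ 3 + k).card + nu p k : ℕ) : ℝ) = p := by
      exact_mod_cast h2
    push_cast at this
    linarith
  have hp0 : (p : ℝ) ≠ 0 := by exact_mod_cast hp.ne_zero
  push_cast
  rw [h3]
  field_simp
  ring

theorem cN_mul (a b k : ℕ) (h : a.Coprime b) (ha : 0 < a) (hb : 0 < b) :
    cN (a * b) k = cN a k * cN b k := by
  unfold cN
  rw [← card_product]
  apply Finset.card_nbij' (fun r => (r % a, r % b)) (fun x => (Nat.chineseRemainder h x.1 x.2 : ℕ))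
  · intro r hr
    simp only [coe_filter, Set.mem_setOf_eq, mem_range] at hr
    simp only [coe_product, Set.mem_prod, coe_filter, Set.mem_setOf_eq, mem_range]
    rw [Nat.coprime_mul_iff_right] at hr
    refine ⟨⟨Nat.mod_lt _ ha, ?_⟩, ⟨Nat.mod_lt _ hb, ?_⟩⟩
    · exact (cong_coprime a k _ _ (Nat.mod_modEq r a)).mpr hr.2.1
    · exact (cong_coprime b k _ _ (Nat.mod_modEq r b)).mpr hr.2.2
  · intro x hx
    simp only [coe_product, Set.mem_prod, coe_filter, Set.mem_setOf_eq, mem_range] at hx
    simp only [coe_filter, Set.mem_setOf_eq, mem_range]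
    refine ⟨Nat.chineseRemainder_lt_mul h _ _ ha.ne' hb.ne', ?_⟩
    rw [Nat.coprime_mul_iff_right]
    exact ⟨(cong_coprime a k _ _ (Nat.chineseRemainder h x.1 x.2).2.1).mpr hx.1.2,
      (cong_coprime b k _ _ (Nat.chineseRemainder h x.1 x.2).2.2).mpr hx.2.2⟩
  · intro r hr
    simp only [coe_filter, Set.mem_setOf_eq, mem_range] at hr
    have h1 := (Nat.chineseRemainder h (r % a) (r % b)).2
    have h2 : (Nat.chineseRemainder h (r % a) (r % b) : ℕ) ≡ r [MOD a * b] := by
      rw [← Nat.modEq_and_modEq_iff_modEq_mul h]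
      exact ⟨h1.1.trans (Nat.mod_modEq r a), h1.2.trans (Nat.mod_modEq r b)⟩
    exact Nat.ModEq.eq_of_lt_of_lt h2 (Nat.chineseRemainder_lt_mul h _ _ ha.ne' hb.ne') hr.1
  · intro x hx
    simp only [coe_product, Set.mem_prod, coe_filter, Set.mem_setOf_eq, mem_range] at hx
    have h1 := (Nat.chineseRemainder h x.1 x.2).2
    ext
    · show (Nat.chineseRemainder h x.1 x.2 : ℕ) % a = x.1
      rw [h1.1, Nat.mod_eq_of_lt hx.1.1]
    · show (Nat.chineseRemainder h x.1 x.2 : ℕ) % b = x.2
      rw [h1.2, Nat.mod_eq_of_lt hx.2.1]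

theorem cN_eq (k n : ℕ) : 0 < n →
    (cN n k : ℝ) = n * ∏ p ∈ n.primeFactors, (1 - (nu p k : ℝ) / p) := by
  induction n using Nat.recOnPosPrimePosCoprime with
  | prime_pow p a hp ha =>
    intro _
    rw [cN_prime_pow p a k hp ha, Nat.primeFactors_prime_pow ha.ne' hp, prod_singleton]
  | zero => intro h; exact absurd h (lt_irrefl 0)
  | one => intro _; simp [cN]
  | coprime a b ha hb hab iha ihb =>
    intro _
    rw [cN_mul a b k hab (by omega) (by omega), hab.primeFactors_mul,
      prod_union hab.disjoint_primeFactors]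
    push_cast
    rw [iha (by omega), ihb (by omega)]
    ring

theorem S_eq (y W k : ℕ) (hW : 1 ≤ W) (h1 : ∀ p : ℕ, p.Prime → (p ∣ W ↔ p ≤ y)) :
    S y k * W.totient = cN W k := by
  have hset : (Icc 1 y).filter Nat.Prime = W.primeFactors := by
    ext p
    simp only [mem_filter, mem_Icc, Nat.mem_primeFactors]
    constructor
    · rintro ⟨⟨_, h⟩, hp⟩
      exact ⟨hp, (h1 p hp).mpr h, by omega⟩
    · rintro ⟨hp, h, _⟩
      exact ⟨⟨hp.one_lt.le, (h1 p hp).mp h⟩, hp⟩
  have ht : (W.totient : ℝ) = W * ∏ p ∈ W.primeFactors, (1 - 1 / (p : ℝ)) := by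
    have := Nat.totient_eq_mul_prod_factors W
    have h2 : ((W.totient : ℚ) : ℝ) = ((W * ∏ p ∈ W.primeFactors, (1 - (p : ℚ)⁻¹) : ℚ) : ℝ) := by
      rw [this]
    push_cast at h2
    rw [h2]
    congr 1
    apply prod_congr rfl
    intro p _
    rw [one_div]
  unfold S
  rw [hset, prod_div_distrib, ht, cN_eq k W hW]
  have hne : ∏ p ∈ W.primeFactors, (1 - 1 / (p : ℝ)) ≠ 0 := by
    rw [prod_ne_zero_iff]
    intro p hp
    have hp' := Nat.prime_of_mem_primeFactors hp
    have h2 : (1 : ℝ) < p := by exact_mod_cast hp'.one_lt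
    have h3 : 1 / (p : ℝ) < 1 := by rw [div_lt_one (by linarith)]; exact h2
    linarith
  field_simp

theorem crt (y W M k : ℕ) (hW : 1 ≤ W) (h1 : ∀ p : ℕ, p.Prime → (p ∣ W ↔ p ≤ y)) :
    |(((Icc 1 M).filter (fun m => (m ^ 3 + k).Coprime W)).card : ℝ) * (W / W.totient) -
      M * S y k| ≤ (W : ℝ) ^ 2 := by
  have hWp : (0 : ℝ) < W := by exact_mod_cast hW
  have htp : 0 < W.totient := Nat.totient_pos.mpr hW
  have htp' : (1 : ℝ) ≤ W.totient := by exact_mod_cast htp
  have hNW : cN W k ≤ W := by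
    unfold cN
    exact (card_filter_le _ _).trans (card_range W).le
  have hNW' : (cN W k : ℝ) ≤ W := by exact_mod_cast hNW
  have hS : S y k = cN W k / W.totient := by
    rw [eq_div_iff (by linarith), S_eq y W k hW h1]
  -- the count
  have hCex : ∃ C : ℕ, C = ((Icc 1 M).filter (fun m => (m ^ 3 + k).Coprime W)).card := ⟨_, rfl⟩
  obtain ⟨C, hC⟩ := hCex
  have hper : ∀ m n, m ≡ n [MOD W] →
      (((m + 1) ^ 3 + k).Coprime W ↔ ((n + 1) ^ 3 + k).Coprime W) :=
    fun m n h => cong_coprime W k _ _ (h.add_right 1)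
  have hC1 : C = ((range M).filter (fun m => ((m + 1) ^ 3 + k).Coprime W)).card := by
    rw [hC]
    symm
    apply Finset.card_nbij' (fun m => m + 1) (fun m => m - 1)
    · intro m hm
      simp only [coe_filter, Set.mem_setOf_eq, mem_range, mem_Icc] at hm ⊢
      exact ⟨⟨by omega, by omega⟩, hm.2⟩
    · intro m hm
      simp only [coe_filter, Set.mem_setOf_eq, mem_range, mem_Icc] at hm ⊢
      have e : m - 1 + 1 = m := by omega
      rw [e]
      exact ⟨by omega, hm.2⟩
    · intro m _
      simp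
    · intro m hm
      simp only [coe_filter, Set.mem_setOf_eq, mem_Icc] at hm
      exact Nat.sub_add_cancel hm.1.1
  have hN1 : ((range W).filter (fun m => ((m + 1) ^ 3 + k).Coprime W)).card = cN W k := by
    have hp : Function.Periodic (fun m => (m ^ 3 + k).Coprime W) W := by
      intro x
      exact propext (cong_coprime W k _ _ (by simp [Nat.ModEq]))
    have h2 := Nat.filter_Ico_card_eq_of_periodic 1 W (fun m => (m ^ 3 + k).Coprime W) hp
    rw [Nat.count_eq_card_filter_range] at h2
    unfold cN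
    rw [← h2]
    apply Finset.card_nbij' (fun m => m + 1) (fun m => m - 1)
    · intro m hm
      simp only [coe_filter, Set.mem_setOf_eq, mem_range, mem_Ico] at hm ⊢
      exact ⟨⟨by omega, by omega⟩, hm.2⟩
    · intro m hm
      simp only [coe_filter, Set.mem_setOf_eq, mem_range, mem_Ico] at hm ⊢
      have e : m - 1 + 1 = m := by omega
      rw [e]
      exact ⟨by omega, hm.2⟩
    · intro m _
      simp
    · intro m hm
      simp only [coe_filter, Set.mem_setOf_eq, mem_Ico] at hm
      exact Nat.sub_add_cancel hm.1.1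
  have hq := card_periods (fun m => ((m + 1) ^ 3 + k).Coprime W) W hper
  have hmono : ∀ A B : ℕ, A ≤ B →
      ((range A).filter (fun m => ((m + 1) ^ 3 + k).Coprime W)).card ≤
      ((range B).filter (fun m => ((m + 1) ^ 3 + k).Coprime W)).card := by
    intro A B hAB
    exact card_le_card (filter_subset_filter _ (range_subset_range.mpr hAB))
  have hlow : (M / W) * cN W k ≤ C := by
    rw [hC1, ← hN1, ← hq]
    exact hmono _ _ (Nat.mul_div_le M W)
  have hupp : C ≤ (M / W + 1) * cN W k := by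
    rw [hC1, ← hN1, ← hq]
    exact hmono _ _ (Nat.lt_mul_div_succ M hW).le
  have hlow' : ((M / W : ℕ) : ℝ) * cN W k ≤ C := by exact_mod_cast hlow
  have hupp' : (C : ℝ) ≤ (((M / W : ℕ) : ℝ) + 1) * cN W k := by exact_mod_cast hupp
  have hd1 : ((M / W : ℕ) : ℝ) ≤ M / W := Nat.cast_div_le
  have hd2 : (M : ℝ) / W ≤ ((M / W : ℕ) : ℝ) + 1 := by
    rw [div_le_iff₀ hWp]
    have := (Nat.lt_mul_div_succ M hW).le
    have h2 : (M : ℝ) ≤ W * (((M / W : ℕ) : ℝ) + 1) := by exact_mod_cast this
    linarith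
  have hNp : (0 : ℝ) ≤ cN W k := Nat.cast_nonneg _
  have hkey : |(C : ℝ) - M / W * cN W k| ≤ W := by
    rw [abs_le]
    constructor
    · nlinarith
    · nlinarith
  rw [← hC, hS]
  have e : (C : ℝ) * (W / W.totient) - M * (cN W k / W.totient) =
      ((C : ℝ) - M / W * cN W k) * (W / W.totient) := by
    field_simp
  rw [e, abs_mul]
  have h3 : |(W : ℝ) / W.totient| ≤ W := by
    rw [abs_of_nonneg (by positivity), div_le_iff₀ (by linarith)]
    nlinarith
  calc |(C : ℝ) - M / W * cN W k| * |(W : ℝ) / W.totient| ≤ W * W :=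
        mul_le_mul hkey h3 (abs_nonneg _) hWp.le
    _ = (W : ℝ) ^ 2 := by ring

end Pool.Agent.H43.HL
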