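import Pool.Agent.H43.HL.Crt
import Pool.Agent.H43.SI.Pri
import Pool.Agent.H26.LDP.Final

/-!
# [H43 HL FINAL] The Hardy-Littlewood asymptotic in mean square over `k`

For `θ > 1/9` there is `C` such that for every `y >= 1` there is `X0` such that for `X >= X0`,
`X^θ <= M`, `M^3 <= X`:
`Σ_{k<=X} (#{m<=M : m^3+k prime} - (M/log X) S y k)^2 <= C y^(-1/24) X (M/log X)^2`.

PROOF. If `θ > 1/3` then `X^θ <= M <= X^(1/3)` forces `X <= 1`; so let `θ <= 1/3` and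
`κ = (1/3 + 3θ)/2 ∈ (1/3, 1)` (if `θ = 1/3` then `κ = 2/3`), `κ < 3θ`. Let `W = lcm(1..y)` (`(Icc 1 y).lcm id`),
`J = ⌊X^κ⌋₊ >= 1`. For `X >= X0(y)`: `W J y^2 <= X^(3θ) <= M^3`. `H26.LDP.final_avg` with `Q = y`:
`Σ_k (N(k) - (1/J) #{(m,j) : m^3+k+jW prime})^2 <= K y^(-1/24) X (M/log X)^2`.
`#{(m,j)} = Σ_{m<=M} P(m^3+k)`, `P(n) = #{j<J : n+jW prime}`; let `c(n) = 1[(n,W)=1] JW/(φ(W) log X)`. By
Cauchy-Schwarz over `m` and since for fixed `m` the numbers `n = m^3+k` (`k <= X`) are different and lie in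
`[1,2X]`: `Σ_k (Σ_m (P(m^3+k) - c(m^3+k)))^2 <= M Σ_m Σ_{n<=2X} (P(n)-c(n))^2 <= M^2 η X (J/log X)^2` by
`SI.pri` with `η = y^(-1/24)`. Divide by `J^2`. Finally
`(1/J) Σ_m c(m^3+k) = #{m<=M : (m^3+k,W)=1} W/(φ(W) log X) = (M S y k + O(W^2))/log X` by `crt` (a prime `p` divides
`lcm(1..y)` iff `p <= y`), and `W^2 <= y^(-1/48) M` for `X` large. `(a+b+c)^2 <= 3(a^2+b^2+c^2)`.
-/

namespace Pool.Agent.H43.HL

open Finset

theorem fin_lcm_dvd_factorial (y : ℕ) : (Icc 1 y).lcm id ∣ y.factorial := by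
  apply Finset.lcm_dvd
  intro i hi
  rw [mem_Icc] at hi
  exact Nat.dvd_factorial hi.1 hi.2

theorem fin_lcm_prime (y p : ℕ) (hp : p.Prime) : p ∣ (Icc 1 y).lcm id ↔ p ≤ y := by
  constructor
  · intro h
    exact (Nat.Prime.dvd_factorial hp).1 (h.trans (fin_lcm_dvd_factorial y))
  · intro h
    exact Finset.dvd_lcm (s := Icc 1 y) (f := id) (mem_Icc.2 ⟨hp.one_lt.le, h⟩)

theorem fin_lcm_pos (y : ℕ) : 1 ≤ (Icc 1 y).lcm id := by
  apply Nat.one_le_iff_ne_zero.2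
  intro h
  have := fin_lcm_dvd_factorial y
  rw [h, zero_dvd_iff] at this
  exact Nat.factorial_ne_zero y this

theorem fin_three (a b c : ℝ) : (a + b + c) ^ 2 ≤ 3 * (a ^ 2 + b ^ 2 + c ^ 2) := by
  nlinarith [sq_nonneg (a - b), sq_nonneg (b - c), sq_nonneg (a - c)]

/-- Cauchy-Schwarz over `m` and the injection `k ↦ m^3+k` -/
theorem fin_cs (g : ℕ → ℝ) (X M : ℕ) (hM : M ^ 3 ≤ X) (R : ℝ)
    (hg : ∑ n ∈ Icc 1 (2 * X), g n ^ 2 ≤ R) :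
    ∑ k ∈ Icc 1 X, (∑ m ∈ Icc 1 M, g (m ^ 3 + k)) ^ 2 ≤ M * (M * R) := by
  have h1 : ∀ k ∈ Icc 1 X, (∑ m ∈ Icc 1 M, g (m ^ 3 + k)) ^ 2 ≤
      M * ∑ m ∈ Icc 1 M, g (m ^ 3 + k) ^ 2 := by
    intro k _
    have := sq_sum_le_card_mul_sum_sq (s := Icc 1 M) (f := fun m => g (m ^ 3 + k))
    simpa using this
  have h2 : ∀ m ∈ Icc 1 M, ∑ k ∈ Icc 1 X, g (m ^ 3 + k) ^ 2 ≤ R := by
    intro m hm
    rw [mem_Icc] at hm
    have hm3 : m ^ 3 ≤ X := le_trans (Nat.pow_le_pow_left hm.2 3) hM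
    have h3 : ∑ k ∈ Icc 1 X, g (m ^ 3 + k) ^ 2 =
        ∑ n ∈ (Icc 1 X).image (fun k => m ^ 3 + k), g n ^ 2 := by
      rw [Finset.sum_image]
      intro a _ b _ hab
      simp only at hab
      omega
    rw [h3]
    refine le_trans (Finset.sum_le_sum_of_subset_of_nonneg ?_ (fun _ _ _ => sq_nonneg _)) hg
    intro n hn
    rw [mem_image] at hn
    obtain ⟨k, hk, rfl⟩ := hn
    rw [mem_Icc] at hk ⊢
    omega
  calc ∑ k ∈ Icc 1 X, (∑ m ∈ Icc 1 M, g (m ^ 3 + k)) ^ 2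
      ≤ ∑ k ∈ Icc 1 X, (M : ℝ) * ∑ m ∈ Icc 1 M, g (m ^ 3 + k) ^ 2 := Finset.sum_le_sum h1
    _ = M * ∑ m ∈ Icc 1 M, ∑ k ∈ Icc 1 X, g (m ^ 3 + k) ^ 2 := by
        rw [← Finset.mul_sum, Finset.sum_comm]
    _ ≤ M * ∑ m ∈ Icc 1 M, R := by
        apply mul_le_mul_of_nonneg_left (Finset.sum_le_sum h2) (Nat.cast_nonneg M)
    _ = M * (M * R) := by simp

/-- the pairs counted along `m` -/
theorem fin_pairs (M J W k : ℕ) :
    ((((Icc 1 M ×ˢ range J).filter (fun p => (p.1 ^ 3 + k + p.2 * W).Prime)).card : ℕ) : ℝ) =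
      ∑ m ∈ Icc 1 M, ((((range J).filter (fun j => (m ^ 3 + k + j * W).Prime)).card : ℕ) : ℝ) := by
  rw [← Nat.cast_sum]
  congr 1
  rw [Finset.card_filter, Finset.sum_product]
  apply Finset.sum_congr rfl
  intro m _
  rw [Finset.card_filter]

theorem final (θ : ℝ) (hθ : 1 / 9 < θ) : ∃ C : ℝ, ∀ y : ℕ, 1 ≤ y → ∃ X0 : ℕ, 2 ≤ X0 ∧
    ∀ X M : ℕ, X0 ≤ X → (X : ℝ) ^ θ ≤ M → M ^ 3 ≤ X →
    ∑ k ∈ Icc 1 X, ((((Icc 1 M).filter (fun m => (m ^ 3 + k).Prime)).card : ℝ) -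
        (M / Real.log X) * S y k) ^ 2 ≤
      C * (y : ℝ) ^ (-(1 : ℝ) / 24) * X * (M / Real.log X) ^ 2 := by
  have hθpos : 0 < θ := by linarith
  obtain ⟨K, hK, havg⟩ := H26.LDP.final_avg θ hθpos
  refine ⟨3 * K + 6, ?_⟩
  intro y hy
  have hM3 : ∀ X M : ℕ, 2 ≤ X → (X : ℝ) ^ θ ≤ M → (X : ℝ) ^ (3 * θ) ≤ (M : ℝ) ^ 3 := by
    intro X M hX h
    have hX0 : (0 : ℝ) ≤ X := Nat.cast_nonneg X
    calc (X : ℝ) ^ (3 * θ) = ((X : ℝ) ^ θ) ^ 3 := by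
          rw [← Real.rpow_natCast, ← Real.rpow_mul hX0]; congr 1; push_cast; ring
      _ ≤ (M : ℝ) ^ 3 := pow_le_pow_left₀ (Real.rpow_nonneg hX0 _) h 3
  rcases lt_or_ge (1 / 3) θ with hθ3 | hθ3
  · -- the vacuous case
    refine ⟨2, le_rfl, ?_⟩
    intro X M hX h1 h2
    exfalso
    have h3 := hM3 X M hX h1
    have hX2 : (2 : ℝ) ≤ X := by exact_mod_cast hX
    have h4 : (X : ℝ) < (X : ℝ) ^ (3 * θ) := by
      calc (X : ℝ) = (X : ℝ) ^ (1 : ℝ) := (Real.rpow_one _).symm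
        _ < (X : ℝ) ^ (3 * θ) := Real.rpow_lt_rpow_of_exponent_lt (by linarith) (by linarith)
    have h5 : (M : ℝ) ^ 3 ≤ X := by exact_mod_cast h2
    linarith
  set κ : ℝ := (1 / 3 + 3 * θ) / 2 with hκ
  have hκ1 : 1 / 3 < κ := by rw [hκ]; linarith
  have hκ2 : κ < 1 := by rw [hκ]; linarith
  have hκ3 : κ < 3 * θ := by rw [hκ]; linarith
  set W : ℕ := (Icc 1 y).lcm id with hW
  have hW1 : 1 ≤ W := fin_lcm_pos y
  set η : ℝ := (y : ℝ) ^ (-(1 : ℝ) / 24) with hη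
  have hypos : (0 : ℝ) < y := by exact_mod_cast hy
  have hηpos : 0 < η := Real.rpow_pos_of_pos hypos _
  obtain ⟨X1, hX1, hpri⟩ := SI.pri W hW1 κ η hκ1 hκ2 hηpos
  have ev1 : ∀ᶠ X : ℕ in Filter.atTop, (W : ℝ) * (y : ℝ) ^ 2 ≤ (X : ℝ) ^ (3 * θ - κ) :=
    ((tendsto_rpow_atTop (by linarith)).comp tendsto_natCast_atTop_atTop).eventually_ge_atTop _
  have ev2 : ∀ᶠ X : ℕ in Filter.atTop, (W : ℝ) ^ 2 * (y : ℝ) ^ ((1 : ℝ) / 48) ≤ (X : ℝ) ^ θ :=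
    ((tendsto_rpow_atTop hθpos).comp tendsto_natCast_atTop_atTop).eventually_ge_atTop _
  obtain ⟨X2, hX2⟩ := Filter.eventually_atTop.1 (ev1.and ev2)
  refine ⟨max X1 X2, le_trans hX1 (le_max_left _ _), ?_⟩
  intro X M hX hM1 hM2
  have hXX1 : X1 ≤ X := le_trans (le_max_left _ _) hX
  obtain ⟨c1, c2⟩ := hX2 X (le_trans (le_max_right _ _) hX)
  have hXtwo : 2 ≤ X := le_trans hX1 hXX1
  have hXr : (2 : ℝ) ≤ X := by exact_mod_cast hXtwo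
  have hXpos : (0 : ℝ) < X := by linarith
  have hlog : 0 < Real.log X := Real.log_pos (by linarith)
  set J : ℕ := ⌊(X : ℝ) ^ κ⌋₊ with hJ
  have hXκ : 1 ≤ (X : ℝ) ^ κ := Real.one_le_rpow (by linarith) (by linarith)
  have hJ1 : 1 ≤ J := Nat.le_floor (by simpa using hXκ)
  have hJpos : (0 : ℝ) < J := by exact_mod_cast hJ1
  have hJle : (J : ℝ) ≤ (X : ℝ) ^ κ := Nat.floor_le (by positivity)
  have hMM := hM3 X M hXtwo hM1
  have hWJ : W * J * y ^ 2 ≤ M ^ 3 := by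
    have : (W : ℝ) * J * (y : ℝ) ^ 2 ≤ (M : ℝ) ^ 3 := by
      calc (W : ℝ) * J * (y : ℝ) ^ 2 = ((W : ℝ) * (y : ℝ) ^ 2) * J := by ring
        _ ≤ (X : ℝ) ^ (3 * θ - κ) * (X : ℝ) ^ κ := by gcongr
        _ = (X : ℝ) ^ (3 * θ) := by rw [← Real.rpow_add hXpos]; congr 1; ring
        _ ≤ (M : ℝ) ^ 3 := hMM
    exact_mod_cast this
  have hA := havg X M y W J hXtwo hM1 hM2 hy hJ1
    (fun q h1 h2 => Finset.dvd_lcm (s := Icc 1 y) (f := id) (mem_Icc.2 ⟨h1, h2⟩)) hWJ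
  have hP := hpri X hXX1
  have hφ : (0 : ℝ) < W.totient := by
    have := Nat.totient_pos.2 hW1
    exact_mod_cast this
  -- the functions
  set c : ℕ → ℝ := fun n =>
    if n.Coprime W then (J : ℝ) * W / (W.totient * Real.log X) else 0 with hc
  set P : ℕ → ℝ := fun n =>
    ((((range J).filter (fun j => (n + j * W).Prime)).card : ℕ) : ℝ) with hPdef
  set g : ℕ → ℝ := fun n => P n - c n with hg
  have hB : ∑ k ∈ Icc 1 X, (∑ m ∈ Icc 1 M, g (m ^ 3 + k)) ^ 2 ≤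
      M * (M * (η * X * (J / Real.log X) ^ 2)) := fin_cs g X M hM2 _ hP
  -- the sum of c
  have hcsum : ∀ k, ∑ m ∈ Icc 1 M, c (m ^ 3 + k) =
      (((Icc 1 M).filter (fun m => (m ^ 3 + k).Coprime W)).card : ℝ) *
        ((J : ℝ) * W / (W.totient * Real.log X)) := by
    intro k
    rw [hc]
    simp only
    rw [← Finset.sum_filter, Finset.sum_const, nsmul_eq_mul]
  have hT3 : ∀ k, |(∑ m ∈ Icc 1 M, c (m ^ 3 + k)) / J - (M / Real.log X) * S y k| ≤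
      (W : ℝ) ^ 2 / Real.log X := by
    intro k
    have h1 := crt y W M k hW1 (fun p hp => fin_lcm_prime y p hp)
    rw [hcsum k]
    have e1 : (((Icc 1 M).filter (fun m => (m ^ 3 + k).Coprime W)).card : ℝ) *
        ((J : ℝ) * W / (W.totient * Real.log X)) / J - (M / Real.log X) * S y k =
        ((((Icc 1 M).filter (fun m => (m ^ 3 + k).Coprime W)).card : ℝ) * (W / W.totient) -
      M * S y k) / Real.log X := by
      have hJ0 : (J : ℝ) ≠ 0 := hJpos.ne'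
      have hl0 : Real.log X ≠ 0 := hlog.ne'
      have hφ0 : (W.totient : ℝ) ≠ 0 := hφ.ne'
      generalize (((Icc 1 M).filter (fun m => (m ^ 3 + k).Coprime W)).card : ℝ) = u
      field_simp
    rw [e1, abs_div, abs_of_pos hlog]
    exact div_le_div_of_nonneg_right h1 hlog.le
  have hW2 : (W : ℝ) ^ 2 / Real.log X ≤ (y : ℝ) ^ (-(1 : ℝ) / 48) * (M / Real.log X) := by
    rw [← mul_div_assoc]
    apply div_le_div_of_nonneg_right _ hlog.le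
    have h1 : (W : ℝ) ^ 2 * (y : ℝ) ^ ((1 : ℝ) / 48) ≤ M := le_trans c2 hM1
    have h2 : (y : ℝ) ^ (-(1 : ℝ) / 48) * (y : ℝ) ^ ((1 : ℝ) / 48) = 1 := by
      rw [← Real.rpow_add hypos, show -(1 : ℝ) / 48 + 1 / 48 = 0 by ring, Real.rpow_zero]
    calc (W : ℝ) ^ 2 = (y : ℝ) ^ (-(1 : ℝ) / 48) * ((W : ℝ) ^ 2 * (y : ℝ) ^ ((1 : ℝ) / 48)) := by
          rw [mul_left_comm, h2, mul_one]
      _ ≤ (y : ℝ) ^ (-(1 : ℝ) / 48) * M := by gcongr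
  have hT3sq : ∀ k, ((∑ m ∈ Icc 1 M, c (m ^ 3 + k)) / J - (M / Real.log X) * S y k) ^ 2 ≤
      η * (M / Real.log X) ^ 2 := by
    intro k
    have h1 := le_trans (hT3 k) hW2
    have h2 : ((∑ m ∈ Icc 1 M, c (m ^ 3 + k)) / J - (M / Real.log X) * S y k) ^ 2 ≤
        ((y : ℝ) ^ (-(1 : ℝ) / 48) * (M / Real.log X)) ^ 2 := by
      rw [← sq_abs]
      exact pow_le_pow_left₀ (abs_nonneg _) h1 2
    refine le_trans h2 (le_of_eq ?_)
    rw [mul_pow, hη, ← Real.rpow_natCast ((y : ℝ) ^ (-(1 : ℝ) / 48)) 2, ← Real.rpow_mul hypos.le]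
    norm_num
  -- assembly
  have hkey : ∀ k ∈ Icc 1 X, ((((Icc 1 M).filter (fun m => (m ^ 3 + k).Prime)).card : ℝ) -
        (M / Real.log X) * S y k) ^ 2 ≤
      3 * (((((Icc 1 M).filter (fun m => (m ^ 3 + k).Prime)).card : ℝ) -
        (((Icc 1 M ×ˢ range J).filter (fun p => (p.1 ^ 3 + k + p.2 * W).Prime)).card : ℝ) / J) ^ 2 +
        (1 / (J : ℝ) ^ 2) * (∑ m ∈ Icc 1 M, g (m ^ 3 + k)) ^ 2 +
        η * (M / Real.log X) ^ 2) := by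
    intro k _
    have h1 := fin_three ((((Icc 1 M).filter (fun m => (m ^ 3 + k).Prime)).card : ℝ) -
        (((Icc 1 M ×ˢ range J).filter (fun p => (p.1 ^ 3 + k + p.2 * W).Prime)).card : ℝ) / J)
      ((∑ m ∈ Icc 1 M, g (m ^ 3 + k)) / J)
      ((∑ m ∈ Icc 1 M, c (m ^ 3 + k)) / J - (M / Real.log X) * S y k)
    have h2 : (∑ m ∈ Icc 1 M, g (m ^ 3 + k)) =
        (((Icc 1 M ×ˢ range J).filter (fun p => (p.1 ^ 3 + k + p.2 * W).Prime)).card : ℝ) -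
        ∑ m ∈ Icc 1 M, c (m ^ 3 + k) := by
      rw [fin_pairs, ← Finset.sum_sub_distrib]
    have h3 : ((((Icc 1 M).filter (fun m => (m ^ 3 + k).Prime)).card : ℝ) -
        (((Icc 1 M ×ˢ range J).filter (fun p => (p.1 ^ 3 + k + p.2 * W).Prime)).card : ℝ) / J) +
        ((∑ m ∈ Icc 1 M, g (m ^ 3 + k)) / J) +
        ((∑ m ∈ Icc 1 M, c (m ^ 3 + k)) / J - (M / Real.log X) * S y k) =
        (((Icc 1 M).filter (fun m => (m ^ 3 + k).Prime)).card : ℝ) -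
        (M / Real.log X) * S y k := by
      rw [h2]; ring
    rw [h3] at h1
    have h4 := hT3sq k
    have h5 : ((∑ m ∈ Icc 1 M, g (m ^ 3 + k)) / J) ^ 2 =
        (1 / (J : ℝ) ^ 2) * (∑ m ∈ Icc 1 M, g (m ^ 3 + k)) ^ 2 := by
      rw [div_pow]; ring
    rw [h5] at h1
    linarith
  refine le_trans (Finset.sum_le_sum hkey) ?_
  rw [← Finset.mul_sum, Finset.sum_add_distrib, Finset.sum_add_distrib, ← Finset.mul_sum,
    Finset.sum_const, Nat.card_Icc, Nat.add_sub_cancel, nsmul_eq_mul]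
  have hB' : (1 / (J : ℝ) ^ 2) * ∑ k ∈ Icc 1 X, (∑ m ∈ Icc 1 M, g (m ^ 3 + k)) ^ 2 ≤
      η * X * (M / Real.log X) ^ 2 := by
    calc _ ≤ (1 / (J : ℝ) ^ 2) * (M * (M * (η * X * (J / Real.log X) ^ 2))) :=
          mul_le_mul_of_nonneg_left hB (by positivity)
      _ = η * X * (M / Real.log X) ^ 2 := by
          have hJ0 : (J : ℝ) ≠ 0 := hJpos.ne'
          have hl0 : Real.log X ≠ 0 := hlog.ne'
          field_simp
  have hnn : 0 ≤ η * X * (M / Real.log X) ^ 2 := by positivity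
  calc _ ≤ 3 * (K * η * X * (M / Real.log X) ^ 2 + η * X * (M / Real.log X) ^ 2 +
        X * (η * (M / Real.log X) ^ 2)) := by gcongr
    _ = (3 * K + 6) * η * X * (M / Real.log X) ^ 2 := by ring

end Pool.Agent.H43.HL
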